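import Pool.Agent.Helper94.LG.Sheet

/-! Row CMP of the sheet LG: a shortest network with nodes in the simplex exists. -/

set_option autoImplicit false

open MeasureTheory Metric Set Filter Topology
open scoped ENNReal NNReal

namespace H11ST
namespace LG

theorem BT.lv_nonempty {ι V : Type} [DecidableEq ι] (t : BT ι V) : t.lv.Nonempty := by
  induction t with
  | leaf i => exact ⟨i, Finset.mem_singleton_self i⟩
  | node z l r ihl ihr => exact ihl.mono Finset.subset_union_left

theorem Dl_eq (d : ℕ) : Dl d = (fun y : Fin d → ℝ => (WithLp.toLp 2 y : E d)) '' stdSimplex ℝ (Fin d) := by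
  ext y
  constructor
  · intro hy
    exact ⟨y.ofLp, ⟨hy.1, hy.2⟩, rfl⟩
  · rintro ⟨z, hz, rfl⟩
    exact ⟨hz.1, hz.2⟩

theorem isCompact_Dl (d : ℕ) : IsCompact (Dl d) := by
  rw [Dl_eq]
  exact (isCompact_stdSimplex ℝ (Fin d)).image (PiLp.continuous_toLp 2 _)

theorem tm_mem_Dl {d : ℕ} (i : Fin d) : tm d i ∈ Dl d := by
  constructor
  · intro k
    unfold tm
    have : (EuclideanSpace.single i (1 : ℝ) : E d) k = if k = i then 1 else 0 := by simp
    rw [this]
    split_ifs <;> norm_num
  · unfold tm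
    simp

/-- positions and lengths of the trees with labels `S` -/
def CC (d : ℕ) (S : Finset (Fin d)) : Set (E d × ℝ) :=
  {x | ∃ t : BT (Fin d) (E d), t.ok ∧ t.lv = S ∧ (∀ z ∈ t.nodes, z ∈ Dl d) ∧
    x = (t.pos (tm d), t.esum (tm d) dist)}

theorem CC_eq (d : ℕ) (S : Finset (Fin d)) : CC d S =
    {x | ∃ i, S = {i} ∧ x = (tm d i, (0 : ℝ))} ∪
      ⋃ S₁ ∈ S.powerset.filter (fun S₁ => S₁ ≠ S ∧ S \ S₁ ≠ S),
        (fun w : E d × ((E d × ℝ) × (E d × ℝ)) =>
          (w.1, dist w.1 w.2.1.1 + w.2.1.2 + (dist w.1 w.2.2.1 + w.2.2.2))) ''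
            (Dl d ×ˢ (CC d S₁ ×ˢ CC d (S \ S₁))) := by
  ext x
  constructor
  · rintro ⟨t, hok, hlv, hn, rfl⟩
    cases t with
    | leaf i => left; exact ⟨i, hlv.symm, rfl⟩
    | node z l r =>
      right
      obtain ⟨hl, hr, hd⟩ := hok
      have hlv' : l.lv ∪ r.lv = S := hlv
      have hr' : S \ l.lv = r.lv := by
        rw [← hlv', Finset.union_sdiff_left]
        exact Finset.sdiff_eq_self_of_disjoint hd.symm
      refine Set.mem_biUnion (x := l.lv) ?_ ?_
      · rw [Finset.coe_filter]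
        refine ⟨Finset.mem_powerset.2 (hlv' ▸ Finset.subset_union_left), ?_, ?_⟩
        · intro h
          have h1 : r.lv = ∅ := by rw [← hr', h, Finset.sdiff_self]
          exact (BT.lv_nonempty r).ne_empty h1
        · intro h
          rw [hr'] at h
          have h1 : l.lv ⊆ r.lv := by rw [h, ← hlv']; exact Finset.subset_union_left
          have h2 : l.lv = ∅ := by
            have := hd
            rw [Finset.disjoint_iff_inter_eq_empty, Finset.inter_eq_left.2 h1] at this
            exact this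
          exact (BT.lv_nonempty l).ne_empty h2
      · refine ⟨(z, ((l.pos (tm d), l.esum (tm d) dist), (r.pos (tm d), r.esum (tm d) dist))),
          ⟨hn z (List.mem_cons_self), ⟨⟨l, hl, rfl, fun w hw => hn w ?_, rfl⟩,
            ⟨r, hr, hr'.symm, fun w hw => hn w ?_, rfl⟩⟩⟩, rfl⟩
        · exact List.mem_cons_of_mem _ (List.mem_append_left _ hw)
        · exact List.mem_cons_of_mem _ (List.mem_append_right _ hw)
  · rintro (⟨i, hi, rfl⟩ | hx)
    · exact ⟨.leaf i, trivial, hi.symm, fun z hz => absurd hz (List.not_mem_nil), rfl⟩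
    · simp only [Set.mem_iUnion] at hx
      obtain ⟨S₁, hS₁, w, ⟨hw1, ⟨l, hl, hll, hln, hlx⟩, ⟨r, hr, hrl, hrn, hrx⟩⟩, rfl⟩ := hx
      have hsub : S₁ ⊆ S := Finset.mem_powerset.1 (Finset.mem_filter.1 hS₁).1
      refine ⟨.node w.1 l r, ⟨hl, hr, ?_⟩, ?_, ?_, ?_⟩
      · rw [hll, hrl]; exact Finset.disjoint_sdiff
      · change l.lv ∪ r.lv = S
        rw [hll, hrl]; exact Finset.union_sdiff_of_subset hsub
      · intro z hz
        rcases List.mem_cons.1 hz with rfl | hz
        · exact hw1
        · rcases List.mem_append.1 hz with hz | hz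
          · exact hln z hz
          · exact hrn z hz
      · change (w.1, dist w.1 w.2.1.1 + w.2.1.2 + (dist w.1 w.2.2.1 + w.2.2.2)) = _
        rw [hlx, hrx]
        rfl

theorem isCompact_CC (d : ℕ) : ∀ (n : ℕ) (S : Finset (Fin d)), S.card ≤ n → IsCompact (CC d S) := by
  intro n
  induction n with
  | zero =>
    intro S hS
    have h0 : S = ∅ := Finset.card_eq_zero.1 (Nat.le_zero.1 hS)
    have : CC d S = ∅ := by
      rw [Set.eq_empty_iff_forall_notMem]
      rintro x ⟨t, -, hlv, -⟩
      exact (BT.lv_nonempty t).ne_empty (hlv.trans h0)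
    rw [this]
    exact isCompact_empty
  | succ n ih =>
    intro S hS
    rw [CC_eq]
    refine IsCompact.union ?_ ?_
    · refine Set.Finite.isCompact ?_
      refine (Set.finite_range (fun i => (tm d i, (0 : ℝ)))).subset ?_
      rintro x ⟨i, -, rfl⟩
      exact ⟨i, rfl⟩
    · refine Finset.isCompact_biUnion _ fun S₁ hS₁ => ?_
      obtain ⟨h1, h2, h3⟩ := Finset.mem_filter.1 hS₁
      have hsub : S₁ ⊆ S := Finset.mem_powerset.1 h1
      have c1 : S₁.card ≤ n := by
        have := Finset.card_lt_card (lt_of_le_of_ne hsub h2)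
        omega
      have c2 : (S \ S₁).card ≤ n := by
        have := Finset.card_lt_card (lt_of_le_of_ne Finset.sdiff_subset h3)
        omega
      refine ((isCompact_Dl d).prod ((ih S₁ c1).prod (ih _ c2))).image ?_
      fun_prop

theorem CC_nonempty (d : ℕ) (i0 : Fin d) (S : Finset (Fin d)) (hS : S.Nonempty) :
    (CC d S).Nonempty := by
  induction hS using Finset.Nonempty.cons_induction with
  | singleton i => exact ⟨_, .leaf i, trivial, rfl, fun z hz => absurd hz (List.not_mem_nil), rfl⟩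
  | cons i S hi hS ih =>
    obtain ⟨-, t, hok, hlv, hn, -⟩ := ih
    refine ⟨_, .node (tm d i0) (.leaf i) t, ⟨trivial, hok, ?_⟩, ?_, ?_, rfl⟩
    · rw [hlv]
      exact Finset.disjoint_singleton_left.2 hi
    · change {i} ∪ t.lv = _
      rw [hlv, Finset.cons_eq_insert, Finset.insert_eq]
    · intro z hz
      rcases List.mem_cons.1 hz with rfl | hz
      · exact tm_mem_Dl i0
      · exact hn z hz

theorem cmp : LG_CMP := by
  intro d i0 hd
  have hS : (Finset.univ.erase i0 : Finset (Fin d)).Nonempty := by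
    rw [← Finset.card_pos, Finset.card_erase_of_mem (Finset.mem_univ _), Finset.card_univ,
      Fintype.card_fin]
    omega
  have hcont : Continuous (fun x : E d × ℝ => dist (tm d i0) x.1 + x.2) := by fun_prop
  obtain ⟨x, hxC, hx⟩ := (isCompact_CC d _ _ le_rfl).exists_isMinOn
    (CC_nonempty d i0 _ hS) hcont.continuousOn
  obtain ⟨t, hok, hlv, hn, ht⟩ := hxC
  refine ⟨t, ⟨hok, hlv⟩, hn, ?_⟩
  intro t' ht' hn'
  have hmem : ((t'.pos (tm d), t'.esum (tm d) dist) : E d × ℝ) ∈ CC d (Finset.univ.erase i0) :=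
    ⟨t', ht'.1, ht'.2, hn', rfl⟩
  have h := isMinOn_iff.1 hx _ hmem
  rw [ht] at h
  exact h

end LG
end H11ST
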