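import Pool.Agent.Helper94.LG.Sheet
open MeasureTheory Metric Set Filter Topology
open scoped ENNReal NNReal

/-!
# LG, row FIN: the final assembly
-/

namespace H11ST
namespace LG
namespace FinAsm

/-- `N d` is monotone -/
theorem N_mono {d : ℕ} {s t : ℝ} (hst : s ≤ t) : N d s ≤ N d t := by
  rw [N]
  refine iSup_le fun A => iSup_le fun S => iSup_le fun x => iSup_le fun r => iSup_le fun h => ?_
  refine le_N h ?_
  refine encard_le_encard ?_
  rintro y ⟨hy, hb⟩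
  exact ⟨ball_subset_ball (mul_le_mul_of_nonneg_right hst h.rpos.le) hy, hb⟩

/-- a minimal network exists -/
theorem exists_Mn (hPRJ : LG_PRJ) (hCMP : LG_CMP) {d : ℕ} (i0 : Fin d) (hd : 2 ≤ d) :
    ∃ t : BT (Fin d) (E d), Mn i0 t := by
  obtain ⟨t, hv, hm, hmin⟩ := hCMP d i0 hd
  refine ⟨t, hv, hm, fun t' ht' => ?_⟩
  obtain ⟨t'', hv'', hm'', hle⟩ := hPRJ d i0 t' ht'
  exact (hmin t'' hv'' hm'').trans hle

end FinAsm

open FinAsm in
/-- the row `FIN` from the other rows -/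
theorem fin (hCHN : LG_CHN) (hLOW : LG_LOW) (hPRJ : LG_PRJ) (hCMP : LG_CMP) (hADM : LG_ADM)
    (hCNT : LG_CNT) (hVAR : LG_VAR) (hTV : LG_TV) (hED : LG_ED) (hLF : LG_LF) (hUP : LG_UP)
    (hSUM : LG_SUM) : LG_FIN := by
  intro d hd t ht
  by_cases hd1 : d ≤ 100
  · have h2 : (2 : ℕ∞) ≤ N d t := two_le_N hd (by linarith)
    refine le_trans ?_ h2
    have : (d + 49) / 50 ≤ 2 := by omega
    exact_mod_cast this
  · push Not at hd1
    refine le_trans ?_ (N_mono (d := d) ht)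
    have hpos : 0 < d := by omega
    obtain ⟨T, hT⟩ := exists_Mn hPRJ hCMP (⟨0, hpos⟩ : Fin d) hd
    obtain ⟨hA, hL⟩ := hADM (hLOW hCHN) d ⟨0, hpos⟩ hd T hT
    refine hCNT d ⟨0, hpos⟩ hd T hT hA hL _ ?_
    have hS := hSUM hVAR hTV hED hLF hUP d ⟨0, hpos⟩ (by omega) T hT
    have h1 : (((d + 49) / 50 : ℕ) : ℝ) ≤ ((d : ℝ) + 49) / 50 := by
      have h3 : (((d + 49) / 50 : ℕ) : ℝ) ≤ ((d + 49 : ℕ) : ℝ) / (50 : ℕ) := Nat.cast_div_le
      push_cast at h3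
      exact h3
    have h2 : (101 : ℝ) ≤ (d : ℝ) := by exact_mod_cast hd1
    linarith

end LG
end H11ST
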